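import Pool.Agent.Lib.MP_fa837f_gt.TS.Iface

/-!
SEC2: `slab` is positive, monotone and homogeneous.
-/

set_option autoImplicit false

open MeasureTheory Set Filter Topology
open scoped Pointwise

namespace Pool.Agent.Lib.MP_fa837f_gt.TS.H18

private lemma sec_nonneg {k n : ℕ} (L : (ℝ × (Fin k → ℝ)) →ₗ[ℝ] (Fin n → ℝ)) (t : Fin n → ℝ)
    (z : ℝ) : 0 ≤ sec L t z := ENNReal.toReal_nonneg

/-- interval integrability -/
private lemma sec_ii (h1 : Sec1Statement) {k n : ℕ} (L : (ℝ × (Fin k → ℝ)) →ₗ[ℝ] (Fin n → ℝ))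
    (hL : Function.Injective L) (t : Fin n → ℝ) {R : ℝ} (hR : 0 ≤ R) :
    IntervalIntegrable (sec L t) volume (-R) R := by
  obtain ⟨_, hev, hanti, _, _⟩ := h1 k n L hL t
  have i2 : IntervalIntegrable (sec L t) volume 0 R := by
    apply AntitoneOn.intervalIntegrable
    rw [uIcc_of_le hR]
    exact hanti.mono fun x hx => hx.1
  have i1 : IntervalIntegrable (sec L t) volume (-R) 0 := by
    apply MonotoneOn.intervalIntegrable
    rw [uIcc_of_le (by linarith)]
    intro x hx y hy hxy
    rw [← hev x, ← hev y]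
    exact hanti (by simpa using hy.2) (by simpa using hx.2) (by linarith)
  exact i1.trans i2

/-- homogeneity of `sec` -/
private lemma sec_hom {k n : ℕ} (L : (ℝ × (Fin k → ℝ)) →ₗ[ℝ] (Fin n → ℝ)) (t : Fin n → ℝ)
    (s z : ℝ) : sec L (fun i => t i + s) (Real.exp s * z) = Real.exp (k * s) * sec L t z := by
  have hs : (0:ℝ) < Real.exp s := Real.exp_pos s
  have e : {y : Fin k → ℝ | ∀ i, |L (Real.exp s * z, y) i| ≤ Real.exp (t i + s)} =
      (Real.exp s) • {y : Fin k → ℝ | ∀ i, |L (z, y) i| ≤ Real.exp (t i)} := by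
    ext y
    rw [mem_smul_set_iff_inv_smul_mem₀ hs.ne']
    simp only [mem_ofPred_eq]
    have e1 : (Real.exp s * z, y) = Real.exp s • ((z, (Real.exp s)⁻¹ • y) : ℝ × (Fin k → ℝ)) := by
      rw [Prod.smul_mk, smul_smul, mul_inv_cancel₀ hs.ne', one_smul, smul_eq_mul]
    refine forall_congr' fun i => ?_
    rw [e1, map_smul, Pi.smul_apply, smul_eq_mul, abs_mul, abs_of_pos hs, Real.exp_add,
      mul_comm (Real.exp (t i))]
    exact mul_le_mul_iff_right₀ hs
  unfold sec
  rw [e, Measure.addHaar_smul, ENNReal.toReal_mul]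
  congr 1
  rw [ENNReal.toReal_ofReal (abs_nonneg _), Module.finrank_fin_fun, abs_of_pos (by positivity),
    ← Real.exp_nat_mul]

theorem sec2 (h1 : Sec1Statement) : Sec2Statement := by
  intro k n L hL
  refine ⟨?_, ?_, ?_⟩
  · intro t ρ
    obtain ⟨_, hev, hanti, _, r, hr, hsr⟩ := h1 k n L hL t
    set R := Real.exp ρ with hR
    have hR0 : 0 < R := Real.exp_pos ρ
    have hi := sec_ii h1 L hL t hR0.le
    have hm : 0 < min r R := lt_min hr hR0
    have h2 : ∫ z in (0:ℝ)..(min r R), sec L t r ≤ ∫ z in (0:ℝ)..(min r R), sec L t z := by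
      refine intervalIntegral.integral_mono_on hm.le intervalIntegrable_const
        (hi.mono_set ?_) ?_
      · rw [uIcc_of_le hm.le, uIcc_of_le (by linarith)]
        exact Icc_subset_Icc (by linarith) (min_le_right _ _)
      · intro z hz
        exact hanti hz.1 hr.le (hz.2.trans (min_le_left _ _))
    have h3 : ∫ z in (0:ℝ)..(min r R), sec L t z ≤ ∫ z in (-R)..R, sec L t z := by
      refine intervalIntegral.integral_mono_interval (by linarith) hm.le (min_le_right _ _) ?_ hi
      exact Filter.Eventually.of_forall fun z => sec_nonneg L t z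
    rw [intervalIntegral.integral_const, sub_zero, smul_eq_mul] at h2
    have h4 : 0 < min r R * sec L t r := mul_pos hm hsr
    unfold slab
    linarith
  · intro s t hst ρ
    unfold slab
    have hR0 : 0 < Real.exp ρ := Real.exp_pos ρ
    refine intervalIntegral.integral_mono_on (by linarith) (sec_ii h1 L hL s hR0.le)
      (sec_ii h1 L hL t hR0.le) ?_
    intro z _
    refine ENNReal.toReal_mono ((h1 k n L hL t).1 z) (measure_mono ?_)
    intro y hy i
    exact (hy i).trans (Real.exp_le_exp.2 (hst i))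
  · intro t s ρ
    have hs : (0:ℝ) < Real.exp s := Real.exp_pos s
    have key := intervalIntegral.integral_comp_mul_left
      (f := sec L (fun i => t i + s)) (a := -Real.exp ρ) (b := Real.exp ρ) hs.ne'
    have e1 : Real.exp s * -Real.exp ρ = -Real.exp (ρ + s) := by
      rw [Real.exp_add]; ring
    have e2 : Real.exp s * Real.exp ρ = Real.exp (ρ + s) := by
      rw [Real.exp_add]; ring
    rw [e1, e2] at key
    simp only [sec_hom, intervalIntegral.integral_const_mul, smul_eq_mul] at key
    unfold slab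
    have e3 : Real.exp ((k + 1) * s) = Real.exp s * Real.exp (k * s) := by
      rw [← Real.exp_add]; congr 1; ring
    rw [e3, mul_assoc, key, ← mul_assoc, mul_inv_cancel₀ hs.ne', one_mul]

end Pool.Agent.Lib.MP_fa837f_gt.TS.H18
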